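import Pool.Agent.Lib.MP_f2967f_an.Odd.Main
import Pool.Agent.Lib.MP_f2967f_an.Uni.Main

set_option autoImplicit false

namespace Pool.Agent.Results.MP_f2967f_an.OddPeriods

/-- The Hénon map `F (z, w) = (z ^ 2 + c - w, z)` has a point `p` with `F^k p = p` and an open
neighbourhood `U` of `p` on which `F^(φ 0), F^(φ 1), …` converge locally uniformly to the identity,
for some `φ 0 < φ 1 < …`. This is the case if `F` has a point `p` with `F^k p = p` lying in a Siegel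
domain (take for `U` the Siegel domain). -/
def SiegelOfPeriod (c : ℂ) (k : ℕ) : Prop :=
  ∃ (p : ℂ × ℂ) (U : Set (ℂ × ℂ)) (φ : ℕ → ℕ),
    (fun x : ℂ × ℂ => (x.1 ^ 2 + c - x.2, x.1))^[k] p = p ∧ IsOpen U ∧ p ∈ U ∧ StrictMono φ ∧
    TendstoLocallyUniformlyOn
      (fun j : ℕ => (fun x : ℂ × ℂ => (x.1 ^ 2 + c - x.2, x.1))^[φ j])
      (id : ℂ × ℂ → ℂ × ℂ) Filter.atTop U

/-- **Odd periods of points in Siegel domains of conservative quadratic Hénon maps.**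

* If `F` has a point of odd period `k` in a Siegel domain, then `4 c` is an algebraic integer of odd
  norm (so `c` is not an algebraic integer), and `k` is not coprime to `∏ (4 ^ e - 1)`, the product
  over `1 ≤ e ≤ D`, where `D` is the degree of `c` over `ℚ`.
* No fixed point of any `F` lies in a Siegel domain.
* If `c` is rational, then `3` divides `k` and `c = m / 4` with `m` odd and `|m| ≤ 37`.
* For each `D` and each odd `k` coprime to `∏_{1 ≤ e ≤ D} (4 ^ e - 1)` (for example every prime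
  `k > 2 ^ D + 1`), no `F` with `c` of degree at most `D` has a point of period `k` in a Siegel
  domain. -/
theorem result :
    (∀ (c : ℂ) (k : ℕ), Odd k → SiegelOfPeriod c k →
      IsIntegral ℤ (4 * c) ∧ Odd ((minpoly ℤ (4 * c)).coeff 0) ∧ ¬ IsIntegral ℤ c ∧
        ¬ Nat.Coprime k (∏ e ∈ Finset.Icc 1 (minpoly ℚ c).natDegree, (4 ^ e - 1))) ∧
    (∀ c : ℂ, ¬ SiegelOfPeriod c 1) ∧
    (∀ (q : ℚ) (k : ℕ), Odd k → SiegelOfPeriod (q : ℂ) k →
      3 ∣ k ∧ ∃ m : ℤ, Odd m ∧ |m| ≤ 37 ∧ q = m / 4) ∧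
    (∀ (D k : ℕ), Odd k → Nat.Coprime k (∏ e ∈ Finset.Icc 1 D, (4 ^ e - 1)) → ∀ c : ℂ,
      (minpoly ℚ c).natDegree ≤ D → ¬ SiegelOfPeriod c k) ∧
    (∀ (D k : ℕ), k.Prime → 2 ^ D + 1 < k → ∀ c : ℂ,
      (minpoly ℚ c).natDegree ≤ D → ¬ SiegelOfPeriod c k) := by
  have key : ∀ (c : ℂ) (k : ℕ), Odd k → SiegelOfPeriod c k →
      IsIntegral ℤ (4 * c) ∧ Odd ((minpoly ℤ (4 * c)).coeff 0) ∧ ¬ IsIntegral ℤ c ∧
        ¬ Nat.Coprime k (∏ e ∈ Finset.Icc 1 (minpoly ℚ c).natDegree, (4 ^ e - 1)) := by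
    rintro c k hk ⟨p, U, φ, hp, hU, hpU, hφ, hlim⟩
    exact Pool.Agent.MPf2967f.Odd.odd_arith c p k hk hp U hU hpU φ hφ hlim
  have key2 : ∀ (D k : ℕ), Odd k → Nat.Coprime k (∏ e ∈ Finset.Icc 1 D, (4 ^ e - 1)) → ∀ c : ℂ,
      (minpoly ℚ c).natDegree ≤ D → ¬ SiegelOfPeriod c k := by
    intro D k hk hcop c hD h
    refine (key c k hk h).2.2.2 (hcop.coprime_dvd_right ?_)
    exact Finset.prod_dvd_prod_of_subset _ _ _ (Finset.Icc_subset_Icc_right hD)
  refine ⟨key, fun c h => (key c 1 odd_one h).2.2.2 (Nat.coprime_one_left _), ?_, key2, ?_⟩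
  · intro q k hk h
    obtain ⟨h1, h2, -, h3⟩ := key q k hk h
    obtain ⟨p, U, φ, hp, hU, hpU, hφ, hlim⟩ := h
    have h4 := (Pool.Agent.MPf2967f.Uni.arith q p k hk.pos hp U hU hpU φ hφ hlim).2.2
    exact Pool.Agent.MPf2967f.Odd.odd_rat h1 h2 h3 h4
  · intro D k hk hD c hc
    obtain ⟨h1, h2⟩ := Pool.Agent.MPf2967f.Odd.coprime_of_prime hk hD
    exact key2 D k h1 h2 c hc

end Pool.Agent.Results.MP_f2967f_an.OddPeriods
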