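import Pool.Agent.Lib.MP_f2967f_an.Uni.Main

set_option autoImplicit false

namespace Pool.Agent.Results.MP_f2967f_an.SiegelFinite

/-- The Hénon map `F (z, w) = (z ^ 2 + c - w, z)` has a periodic point `p` (of some period `k ≥ 1`)
with an open neighbourhood `U` on which `F^(φ 0), F^(φ 1), …` converge locally uniformly to the
identity, for some `φ 0 < φ 1 < …`. This is the case if `F` has a periodic point lying in a Siegel
domain (take for `U` the Siegel domain). -/
def SiegelPeriodic (c : ℂ) : Prop :=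
  ∃ (p : ℂ × ℂ) (k : ℕ) (U : Set (ℂ × ℂ)) (φ : ℕ → ℕ), 0 < k ∧
    (fun x : ℂ × ℂ => (x.1 ^ 2 + c - x.2, x.1))^[k] p = p ∧ IsOpen U ∧ p ∈ U ∧ StrictMono φ ∧
    TendstoLocallyUniformlyOn
      (fun j : ℕ => (fun x : ℂ × ℂ => (x.1 ^ 2 + c - x.2, x.1))^[φ j])
      (id : ℂ × ℂ → ℂ × ℂ) Filter.atTop U

/-- **Periodic points in Siegel domains of conservative quadratic Hénon maps.** If `F` has a
periodic point, of any period, lying in a Siegel domain, then `64 c` is an algebraic integer and all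
conjugates of `c` have modulus less than `2500`. Consequently there are only finitely many such
parameters `c` in each degree, for all periods together. -/
theorem result :
    (∀ c : ℂ, SiegelPeriodic c → IsIntegral ℤ (64 * c) ∧ ∀ σ : ℂ →+* ℂ, ‖σ c‖ < 2500) ∧
    (∀ D : ℕ, {c : ℂ | SiegelPeriodic c ∧ (minpoly ℚ c).natDegree ≤ D}.Finite) := by
  have key : ∀ c : ℂ, SiegelPeriodic c →
      IsIntegral ℤ (64 * c) ∧ ∀ σ : ℂ →+* ℂ, ‖σ c‖ < 2500 := by
    rintro c ⟨p, k, U, φ, hk, hp, hU, hpU, hφ, hlim⟩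
    have h := Pool.Agent.MPf2967f.Uni.arith c p k hk hp U hU hpU φ hφ hlim
    exact ⟨h.1, h.2.1⟩
  exact ⟨key, Pool.Agent.MPf2967f.Uni.finite_of_arith _ key⟩

end Pool.Agent.Results.MP_f2967f_an.SiegelFinite
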